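import Pool.Agent.Lib.MP_361a6f_ag.RM.Fft

/-!
# First fundamental theorem, second half
-/

open Finset

open scoped BigOperators ComplexConjugate

set_option linter.unusedSectionVars false

namespace MP361RM

variable {A I : Type} [Fintype I] [DecidableEq I] [DecidableEq A]

/-! ## Derivative of the action -/

lemma sum_update_eq {L : ℕ} (i : Fin L) (w : Fin L → I) (F : (Fin L → I) → ℂ) :
    ∑ b, F (Function.update w i b) =
      ∑ w' : Fin L → I, (∏ j ∈ univ.erase i, (1 : Matrix I I ℂ) (w j) (w' j)) * F w' := by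
  have h1 : ∀ b, F (Function.update w i b) =
      ∑ w' : Fin L → I, if w' = Function.update w i b then F w' else 0 := by
    intro b
    rw [Finset.sum_ite_eq' univ (Function.update w i b) F]
    simp
  simp only [h1]
  rw [Finset.sum_comm]
  refine Finset.sum_congr rfl fun w' _ => ?_
  by_cases h : ∀ j, j ≠ i → w j = w' j
  · have h2 : (∏ j ∈ univ.erase i, (1 : Matrix I I ℂ) (w j) (w' j)) = 1 := by
      refine Finset.prod_eq_one fun j hj => ?_
      rw [h j (Finset.ne_of_mem_erase hj), Matrix.one_apply_eq]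
    rw [h2, one_mul, Finset.sum_eq_single (w' i)]
    · rw [if_pos]
      funext j
      by_cases hj : j = i
      · subst hj; simp
      · rw [Function.update_of_ne hj, h j hj]
    · intro b _ hb
      rw [if_neg]
      intro h3
      apply hb
      rw [h3, Function.update_self]
    · intro h3; exact absurd (Finset.mem_univ _) h3
  · have h0 : ∃ j, j ≠ i ∧ w j ≠ w' j := by
      by_contra h4
      exact h fun j hj => by
        by_contra h5
        exact h4 ⟨j, hj, h5⟩
    obtain ⟨j, hj, hj'⟩ := h0
    have h3 : (∏ j ∈ univ.erase i, (1 : Matrix I I ℂ) (w j) (w' j)) = 0 :=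
      Finset.prod_eq_zero (Finset.mem_erase.2 ⟨hj, Finset.mem_univ j⟩)
        (Matrix.one_apply_ne hj')
    rw [h3, zero_mul]
    refine Finset.sum_eq_zero fun b _ => ?_
    rw [if_neg]
    intro h3
    apply hj'
    rw [h3, Function.update_of_ne hj]

lemma der_eq_sum {L : ℕ} (X : Matrix I I ℂ) (u : Tn I L) (w : Fin L → I) :
    der X u w = ∑ w' : Fin L → I, (∑ i, (∏ j ∈ univ.erase i, (1 : Matrix I I ℂ) (w j) (w' j)) *
      X (w i) (w' i)) * u w' := by
  have h0 : ∀ i, ∑ b, X (w i) b * u (Function.update w i b) = ∑ w' : Fin L → I,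
      (∏ j ∈ univ.erase i, (1 : Matrix I I ℂ) (w j) (w' j)) * (X (w i) (w' i) * u w') := by
    intro i
    have h := sum_update_eq i w (fun w' => X (w i) (w' i) * u w')
    simp only [Function.update_self] at h
    exact h
  show ∑ i, ∑ b, X (w i) b * u (Function.update w i b) = _
  simp only [h0]
  rw [Finset.sum_comm]
  refine Finset.sum_congr rfl fun w' _ => ?_
  rw [Finset.sum_mul]
  refine Finset.sum_congr rfl fun i _ => by ring

attribute [local instance] Matrix.linftyOpNormedRing Matrix.linftyOpNormedAlgebra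

/-- If `u` is fixed by all `exp (t A)`, `t` real, then `der A u = 0`. -/
theorem der_zero_of_exp {L : ℕ} (X : Matrix I I ℂ) (u : Tn I L)
    (hu : ∀ t : ℝ, act (NormedSpace.exp (t • X)) u = u) (w : Fin L → I) : der X u w = 0 := by
  have h1 : HasDerivAt (fun t : ℝ => NormedSpace.exp (t • X)) (NormedSpace.exp ((0 : ℝ) • X) * X)
      0 := hasDerivAt_exp_smul_const X 0
  have h2 : ∀ p q : I, HasDerivAt (fun t : ℝ => NormedSpace.exp (t • X) p q) (X p q) 0 := by
    intro p q
    have h3 := (LinearMap.toContinuousLinearMap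
      (Matrix.entryLinearMap ℝ ℂ p q : Matrix I I ℂ →ₗ[ℝ] ℂ)).hasFDerivAt.comp_hasDerivAt
        (0 : ℝ) h1
    simp only [zero_smul, NormedSpace.exp_zero, one_mul] at h3
    exact h3
  have h4 : HasDerivAt (fun t : ℝ => act (NormedSpace.exp (t • X)) u w) (der X u w) 0 := by
    rw [der_eq_sum]
    unfold act
    apply HasDerivAt.fun_sum
    intro w' _
    apply HasDerivAt.mul_const
    have h5 := HasDerivAt.fun_finsetProd (u := (univ : Finset (Fin L)))
      (f := fun i (t : ℝ) => NormedSpace.exp (t • X) (w i) (w' i))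
      (f' := fun i => X (w i) (w' i)) (x := (0 : ℝ)) (fun i _ => h2 (w i) (w' i))
    simpa using h5
  have h6 : (fun t : ℝ => act (NormedSpace.exp (t • X)) u w) = fun _ => u w := by
    funext t; rw [hu t]
  rw [h6] at h4
  exact h4.unique (hasDerivAt_const _ _)

/-! ## One-parameter subgroups of `K` -/

namespace Crd

variable (c : Crd A I)

/-- type preserving and commuting with `J`. -/
def TJ (M : Matrix I I ℂ) : Prop :=
  (∀ a b, c.typ a ≠ c.typ b → M a b = 0) ∧
    ∀ a b, M (c.bar a) (c.bar b) = c.sg a * c.sg b * conj (M a b)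

/-- `bar` as an equivalence. -/
def barE : I ≃ I := ⟨c.bar, c.bar, c.bar_bar, c.bar_bar⟩

lemma TJ_one : c.TJ (1 : Matrix I I ℂ) := by
  refine ⟨fun a b h => Matrix.one_apply_ne (fun h' => h (by rw [h'])), fun a b => ?_⟩
  by_cases h : a = b
  · subst h
    rw [Matrix.one_apply_eq, Matrix.one_apply_eq, map_one, mul_one, c.sg_sq]
  · rw [Matrix.one_apply_ne h, Matrix.one_apply_ne (fun h' => h (c.bar_inj h')), map_zero,
      mul_zero]

lemma TJ_mul {M N : Matrix I I ℂ} (hM : c.TJ M) (hN : c.TJ N) : c.TJ (M * N) := by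
  refine ⟨fun a b h => ?_, fun a b => ?_⟩
  · rw [Matrix.mul_apply]
    refine Finset.sum_eq_zero fun r _ => ?_
    by_cases h1 : c.typ a = c.typ r
    · rw [hN.1 r b (fun h2 => h (h1.trans h2)), mul_zero]
    · rw [hM.1 a r h1, zero_mul]
  · rw [Matrix.mul_apply, Matrix.mul_apply, ← Equiv.sum_comp c.barE, map_sum, Finset.mul_sum]
    refine Finset.sum_congr rfl fun r _ => ?_
    show M (c.bar a) (c.bar r) * N (c.bar r) (c.bar b) = _
    rw [hM.2, hN.2, map_mul]
    linear_combination (c.sg a * c.sg b * conj (M a r) * conj (N r b)) * c.sg_sq r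

lemma TJ_pow {M : Matrix I I ℂ} (hM : c.TJ M) (n : ℕ) : c.TJ (M ^ n) := by
  induction n with
  | zero => rw [pow_zero]; exact c.TJ_one
  | succ n ih => rw [pow_succ]; exact c.TJ_mul ih hM

lemma TJ_exp {M : Matrix I I ℂ} (hM : c.TJ M) : c.TJ (NormedSpace.exp M) := by
  have hs := NormedSpace.exp_series_hasSum_exp' (𝕂 := ℝ) M
  refine ⟨fun a b h => ?_, fun a b => ?_⟩
  · have h1 := (LinearMap.toContinuousLinearMap
      (Matrix.entryLinearMap ℝ ℂ a b : Matrix I I ℂ →ₗ[ℝ] ℂ)).hasSum hs
    have h2 : (fun n : ℕ => (LinearMap.toContinuousLinearMap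
      (Matrix.entryLinearMap ℝ ℂ a b : Matrix I I ℂ →ₗ[ℝ] ℂ)) (((n.factorial : ℝ)⁻¹) • M ^ n)) =
        fun _ => 0 := by
      funext n
      show ((n.factorial : ℝ)⁻¹) • (M ^ n) a b = 0
      rw [(c.TJ_pow hM n).1 a b h, smul_zero]
    rw [h2] at h1
    exact h1.unique hasSum_zero
  · have h1 := (LinearMap.toContinuousLinearMap
      (Matrix.entryLinearMap ℝ ℂ (c.bar a) (c.bar b) : Matrix I I ℂ →ₗ[ℝ] ℂ)).hasSum hs
    let f : Matrix I I ℂ →ₗ[ℝ] ℂ :=
      { toFun := fun M => c.sg a * c.sg b * conj (M a b)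
        map_add' := fun M N => by
          rw [Matrix.add_apply, map_add, mul_add]
        map_smul' := fun r M => by
          rw [Matrix.smul_apply, RingHom.id_apply, Complex.real_smul, Complex.real_smul, map_mul,
            Complex.conj_ofReal]
          ring }
    have h3 := (LinearMap.toContinuousLinearMap f).hasSum hs
    have h2 : (fun n : ℕ => (LinearMap.toContinuousLinearMap
      (Matrix.entryLinearMap ℝ ℂ (c.bar a) (c.bar b) : Matrix I I ℂ →ₗ[ℝ] ℂ))
        (((n.factorial : ℝ)⁻¹) • M ^ n)) =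
        fun n : ℕ => (LinearMap.toContinuousLinearMap f) (((n.factorial : ℝ)⁻¹) • M ^ n) := by
      funext n
      show ((n.factorial : ℝ)⁻¹) • (M ^ n) (c.bar a) (c.bar b) =
        c.sg a * c.sg b * conj (((((n.factorial : ℝ)⁻¹) • M ^ n) : Matrix I I ℂ) a b)
      rw [(c.TJ_pow hM n).2 a b, Matrix.smul_apply, Complex.real_smul, Complex.real_smul, map_mul,
        Complex.conj_ofReal]
      ring
    rw [h2] at h1
    exact h1.unique h3

lemma exp_mem_K {M : Matrix I I ℂ} (hM : c.TJ M) (hs : M.conjTranspose = -M) (t : ℝ) :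
    NormedSpace.exp (t • M) ∈ c.K := by
  have h1 : c.TJ (t • M) := by
    refine ⟨fun a b h => ?_, fun a b => ?_⟩
    · rw [Matrix.smul_apply, hM.1 a b h, smul_zero]
    · rw [Matrix.smul_apply, Matrix.smul_apply, hM.2, Complex.real_smul, Complex.real_smul,
        map_mul, Complex.conj_ofReal]
      ring
  refine ⟨?_, (c.TJ_exp h1).1, (c.TJ_exp h1).2⟩
  rw [Matrix.mem_unitaryGroup_iff', Matrix.star_eq_conjTranspose, ← Matrix.exp_conjTranspose]
  have h2 : (t • M).conjTranspose = -(t • M) := by
    rw [Matrix.conjTranspose_smul, hs, smul_neg]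
    simp
  rw [h2, Matrix.exp_neg]
  exact Matrix.nonsing_inv_mul _ ((Matrix.isUnit_iff_isUnit_det _).1 (Matrix.isUnit_exp _))

lemma X_bar (α : A) {a b : I} (ha : c.typ a = α) (hb : c.typ b = α) (p q : I) :
    c.X a b (c.bar p) (c.bar q) = - (c.sg p * c.sg q * c.X b a p q) := by
  unfold X
  have h1 : (c.bar p = a ∧ c.bar q = b) ↔ (p = c.bar a ∧ q = c.bar b) := by
    constructor
    · rintro ⟨rfl, rfl⟩; simp [c.bar_bar]
    · rintro ⟨rfl, rfl⟩; simp [c.bar_bar]
  have h2 : (c.bar p = c.bar b ∧ c.bar q = c.bar a) ↔ (p = b ∧ q = a) := by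
    constructor
    · rintro ⟨h, h'⟩; exact ⟨c.bar_inj h, c.bar_inj h'⟩
    · rintro ⟨rfl, rfl⟩; exact ⟨rfl, rfl⟩
  rw [if_congr h1 rfl rfl, if_congr h2 rfl rfl]
  by_cases h3 : p = b ∧ q = a
  · by_cases h4 : p = c.bar a ∧ q = c.bar b
    · rw [if_pos h4, if_pos h3, if_pos h3, if_pos h4, h3.1, h3.2]
      linear_combination (-(c.sg b * c.sg b)) * c.sg_sq a - c.sg_sq b
    · rw [if_pos h3, if_neg h4, if_pos h3]
      obtain ⟨h9, h10⟩ := h3
      subst h9 h10
      rw [if_neg h4]
      ring
  · rw [if_neg h3, if_neg h3]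
    by_cases h4 : p = c.bar a ∧ q = c.bar b
    · rw [if_pos h4, if_pos h4]
      obtain ⟨h7, h8⟩ := h4
      subst h7 h8
      rw [c.sg_bar', c.sg_bar', ha, hb]
      linear_combination - c.eps_sq α * (c.sg a * c.sg a * c.sg b * c.sg b)
        - (c.sg b * c.sg b) * c.sg_sq a - c.sg_sq b
    · rw [if_neg h4, if_neg h4]
      ring

end Crd

lemma der_add {L : ℕ} (X Y : Matrix I I ℂ) (u : Tn I L) (w : Fin L → I) :
    der (X + Y) u w = der X u w + der Y u w := by
  unfold der sl
  rw [← Finset.sum_add_distrib]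
  refine Finset.sum_congr rfl fun i _ => ?_
  rw [← Finset.sum_add_distrib]
  refine Finset.sum_congr rfl fun b _ => ?_
  rw [Matrix.add_apply]; ring

lemma der_smul {L : ℕ} (z : ℂ) (X : Matrix I I ℂ) (u : Tn I L) (w : Fin L → I) :
    der (z • X) u w = z * der X u w := by
  unfold der sl
  rw [Finset.mul_sum]
  refine Finset.sum_congr rfl fun i _ => ?_
  rw [Finset.mul_sum]
  refine Finset.sum_congr rfl fun b _ => ?_
  rw [Matrix.smul_apply, smul_eq_mul]; ring

namespace Crd

variable (c : Crd A I)

lemma X_type (α : A) {a b : I} (ha : c.typ a = α) (hb : c.typ b = α) (p q : I)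
    (h : c.typ p ≠ c.typ q) : c.X a b p q = 0 := by
  unfold X
  rw [if_neg, if_neg, sub_zero]
  · rintro ⟨rfl, rfl⟩
    exact h (by rw [c.typ_bar, c.typ_bar, ha, hb])
  · rintro ⟨rfl, rfl⟩
    exact h (by rw [ha, hb])

theorem der_X_of_inv {L : ℕ} (α : A) (u : Tn I L) (hu : ∀ k ∈ c.K, act k u = u) {a b : I}
    (ha : c.typ a = α) (hb : c.typ b = α) (w : Fin L → I) : der (c.X a b) u w = 0 := by
  have h1 : der (c.X a b + (-1 : ℂ) • c.X b a) u w = 0 := by
    refine der_zero_of_exp _ u (fun t => hu _ (c.exp_mem_K ⟨?_, ?_⟩ ?_ t)) w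
    · intro p q h
      rw [Matrix.add_apply, Matrix.smul_apply, c.X_type α ha hb p q h, c.X_type α hb ha p q h,
        smul_zero, add_zero]
    · intro p q
      rw [Matrix.add_apply, Matrix.smul_apply, Matrix.add_apply, Matrix.smul_apply,
        c.X_bar α ha hb, c.X_bar α hb ha]
      have h2 : ∀ a b : I, conj (c.X a b p q) = c.X a b p q := by
        intro a b
        unfold X
        rw [map_sub]
        congr 1
        · split_ifs <;> simp
        · split_ifs <;> simp [c.sg_conj]
      simp only [smul_eq_mul, map_add, map_mul, h2, map_neg, map_one]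
      ring
    · rw [Matrix.conjTranspose_add, Matrix.conjTranspose_smul, c.X_conjTranspose,
        c.X_conjTranspose]
      simp only [star_neg, star_one, neg_smul, one_smul, neg_add_rev, neg_neg]
  have h3 : der (Complex.I • (c.X a b + c.X b a)) u w = 0 := by
    refine der_zero_of_exp _ u (fun t => hu _ (c.exp_mem_K ⟨?_, ?_⟩ ?_ t)) w
    · intro p q h
      rw [Matrix.smul_apply, Matrix.add_apply, c.X_type α ha hb p q h, c.X_type α hb ha p q h,
        add_zero, smul_zero]
    · intro p q
      rw [Matrix.smul_apply, Matrix.add_apply, Matrix.smul_apply, Matrix.add_apply,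
        c.X_bar α ha hb, c.X_bar α hb ha]
      have h2 : ∀ a b : I, conj (c.X a b p q) = c.X a b p q := by
        intro a b
        unfold X
        rw [map_sub]
        congr 1
        · split_ifs <;> simp
        · split_ifs <;> simp [c.sg_conj]
      simp only [smul_eq_mul, map_add, map_mul, h2, Complex.conj_I]
      ring
    · rw [Matrix.conjTranspose_smul, Matrix.conjTranspose_add, c.X_conjTranspose,
        c.X_conjTranspose]
      simp only [RCLike.star_def, Complex.conj_I, neg_smul]
      rw [add_comm]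
  rw [der_add, der_smul] at h1
  rw [der_smul, der_add] at h3
  have h4 := (mul_eq_zero.1 h3).resolve_left Complex.I_ne_zero
  linear_combination (1 / 2 : ℂ) * h1 + (1 / 2 : ℂ) * h4

end Crd

/-! ## Reflections -/

lemma act_diagonal {L : ℕ} (d : I → ℂ) (u : Tn I L) (w : Fin L → I) :
    act (Matrix.diagonal d) u w = (∏ i, d (w i)) * u w := by
  unfold act
  rw [Finset.sum_eq_single w]
  · simp only [Matrix.diagonal_apply_eq]
  · intro w' _ hw'
    have h : ∃ i, w i ≠ w' i := by
      by_contra h
      apply hw'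
      funext i
      by_contra h'
      exact h ⟨i, fun h'' => h' h''.symm⟩
    obtain ⟨i, hi⟩ := h
    rw [Finset.prod_eq_zero (Finset.mem_univ i) (Matrix.diagonal_apply_ne d hi), zero_mul]
  · intro h; exact absurd (Finset.mem_univ _) h

namespace Crd

variable (c : Crd A I)

lemma refl_mem_K {a : I} (ha : c.eps (c.typ a) = 1) :
    Matrix.diagonal (fun p => if p = a then (-1 : ℂ) else 1) ∈ c.K := by
  refine ⟨?_, ?_, ?_⟩
  · rw [Matrix.mem_unitaryGroup_iff, Matrix.star_eq_conjTranspose,
      Matrix.diagonal_conjTranspose, Matrix.diagonal_mul_diagonal]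
    rw [← Matrix.diagonal_one]
    congr 1
    funext p
    by_cases h : p = a
    · simp [h]
    · simp [h]
  · intro p q h
    exact Matrix.diagonal_apply_ne _ (fun h' => h (by rw [h']))
  · intro p q
    by_cases h : p = q
    · subst h
      rw [Matrix.diagonal_apply_eq, Matrix.diagonal_apply_eq]
      have h1 : c.bar p = a ↔ p = a := by
        constructor
        · intro h1
          have h2 : p = c.bar a := by rw [← h1, c.bar_bar]
          rw [h2, c.real a ha]
        · intro h1
          rw [h1, c.real a ha]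
      rw [if_congr h1 rfl rfl]
      by_cases h2 : p = a
      · rw [if_pos h2, map_neg, map_one]
        linear_combination c.sg_sq p
      · rw [if_neg h2, map_one]
        linear_combination - c.sg_sq p
    · rw [Matrix.diagonal_apply_ne _ h, Matrix.diagonal_apply_ne _ (fun h' => h (c.bar_inj h')),
        map_zero, mul_zero]

end Crd

/-! ## Contraction, insertion, permutation -/

lemma sum_cons {L : ℕ} (F : (Fin (L + 1) → I) → ℂ) :
    ∑ w, F w = ∑ p, ∑ w' : Fin L → I, F (Fin.cons p w') := by
  rw [← Equiv.sum_comp (Fin.consEquiv (fun _ => I)), Fintype.sum_prod_type]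
  rfl

/-- Permutation of the slots. -/
def prm {L : ℕ} (π : Equiv.Perm (Fin L)) (u : Tn I L) : Tn I L := fun w => u (w ∘ π)

lemma act_prm {L : ℕ} (π : Equiv.Perm (Fin L)) (k : Matrix I I ℂ) (u : Tn I L) :
    act k (prm π u) = prm π (act k u) := by
  funext w
  unfold act prm
  rw [← Equiv.sum_comp (Equiv.arrowCongr π (Equiv.refl I))]
  refine Finset.sum_congr rfl fun w' _ => ?_
  have h1 : (Equiv.arrowCongr π (Equiv.refl I)) w' ∘ π = w' := by
    funext i
    simp
  rw [h1]
  congr 1
  rw [← Equiv.prod_comp π]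
  refine Finset.prod_congr rfl fun i _ => ?_
  simp

lemma ip_prm {L : ℕ} (π : Equiv.Perm (Fin L)) (m u : Tn I L) :
    ip m (prm π u) = ip (prm π⁻¹ m) u := by
  unfold ip prm
  rw [← Equiv.sum_comp (Equiv.arrowCongr π (Equiv.refl I))]
  refine Finset.sum_congr rfl fun w' _ => ?_
  have h1 : (Equiv.arrowCongr π (Equiv.refl I)) w' ∘ π = w' := by
    funext i
    simp
  have h2 : (Equiv.arrowCongr π (Equiv.refl I)) w' = w' ∘ ⇑π⁻¹ := by
    funext i
    simp [Equiv.Perm.inv_def]
  rw [h1, h2]

namespace Crd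

variable (c : Crd A I)

/-- insertion of `om` in front. -/
def ins {L : ℕ} (α : A) (m : Tn I L) : Tn I (L + 2) :=
  fun w => c.om α (w 0) (w 1) * m (fun i => w i.succ.succ)

/-- contraction of the first two slots. -/
def ctr {L : ℕ} (α : A) (u : Tn I (L + 2)) : Tn I L :=
  fun w => ∑ p, ∑ q, c.om α p q * u (Fin.cons p (Fin.cons q w : Fin (L + 1) → I))

lemma ins_cons {L : ℕ} (α : A) (m : Tn I L) (p q : I) (w : Fin L → I) :
    c.ins α m (Fin.cons p (Fin.cons q w : Fin (L + 1) → I)) = c.om α p q * m w := rfl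

lemma ip_ins {L : ℕ} (α : A) (m : Tn I L) (u : Tn I (L + 2)) :
    ip (c.ins α m) u = ip m (c.ctr α u) := by
  unfold ip ctr
  rw [sum_cons]
  simp only [sum_cons (L := L), c.ins_cons, Finset.mul_sum, map_mul, c.om_conj]
  have h : ∀ p : I, ∑ q : I, ∑ w : Fin L → I, c.om α p q * conj (m w) *
      u (Fin.cons p (Fin.cons q w : Fin (L + 1) → I)) =
      ∑ w : Fin L → I, ∑ q : I, conj (m w) *
        (c.om α p q * u (Fin.cons p (Fin.cons q w : Fin (L + 1) → I))) := by
    intro p
    rw [Finset.sum_comm]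
    refine Finset.sum_congr rfl fun w _ => Finset.sum_congr rfl fun q _ => by ring
  simp only [h]
  rw [Finset.sum_comm]

lemma K_om (α : A) {k : Matrix I I ℂ} (hk : k ∈ c.K) (p' q' : I) :
    ∑ p, ∑ q, c.om α p q * (k p p' * k q q') = c.om α p' q' := by
  have h1 : ∀ p, ∑ q, c.om α p q * (k p p' * k q q') =
      (if c.typ p = α then 1 else 0) * (c.sg q' * (if c.typ (c.bar q') = c.typ q' then 1 else 1)) *
        (c.sg (c.bar q') * c.sg q') * (k p p' * conj (k p (c.bar q'))) := by
    intro p
    by_cases hp : c.typ p = α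
    · rw [Finset.sum_eq_single (c.bar p)]
      · unfold om
        rw [if_pos ⟨hp, rfl⟩, if_pos hp]
        have h2 := hk.2.2 p (c.bar q')
        rw [c.bar_bar] at h2
        rw [h2]
        simp only [ite_self]
        linear_combination (c.sg (c.bar q') * k p p' * conj (k p (c.bar q'))) * c.sg_sq p
          - (c.sg (c.bar q') * k p p' * conj (k p (c.bar q'))) * c.sg_sq q'
      · intro q _ hq
        rw [om, if_neg (fun h => hq h.2), zero_mul]
      · intro h; exact absurd (Finset.mem_univ _) h
    · rw [if_neg hp]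
      simp only [zero_mul]
      refine Finset.sum_eq_zero fun q _ => ?_
      rw [om, if_neg (fun h => hp h.1), zero_mul]
  simp only [h1, ite_self]
  have hu : ∀ a b : I, ∑ p, k p a * conj (k p b) = if a = b then 1 else 0 := by
    intro a b
    have h3 := (Matrix.mem_unitaryGroup_iff').1 hk.1
    have h4 := congrFun (congrFun h3 b) a
    rw [Matrix.mul_apply] at h4
    simp only [Matrix.star_apply] at h4
    have h5 : ∑ p, k p a * conj (k p b) = ∑ p, star (k p b) * k p a := by
      refine Finset.sum_congr rfl fun p _ => ?_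
      rw [RCLike.star_def]; ring
    rw [h5, h4]
    by_cases h6 : a = b
    · rw [h6, if_pos rfl, Matrix.one_apply_eq]
    · rw [if_neg h6, Matrix.one_apply_ne (fun h7 => h6 h7.symm)]
  by_cases hp' : c.typ p' = α
  · have h2 : ∀ p, (if c.typ p = α then (1 : ℂ) else 0) * (c.sg q' * 1) *
        (c.sg (c.bar q') * c.sg q') * (k p p' * conj (k p (c.bar q'))) =
        c.sg (c.bar q') * (k p p' * conj (k p (c.bar q'))) := by
      intro p
      by_cases hp : c.typ p = α
      · rw [if_pos hp]
        linear_combination (c.sg (c.bar q') * (k p p' * conj (k p (c.bar q')))) * c.sg_sq q'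
      · rw [hk.2.1 p p' (fun h => hp (h.trans hp'))]
        ring
    simp only [h2]
    rw [← Finset.mul_sum, hu]
    unfold om
    by_cases h3 : p' = c.bar q'
    · have h4 : q' = c.bar p' := by rw [h3, c.bar_bar]
      rw [if_pos h3, if_pos ⟨hp', h4⟩, mul_one, ← h3]
    · rw [if_neg h3, if_neg, mul_zero]
      rintro ⟨_, h4⟩
      exact h3 (by rw [h4, c.bar_bar])
  · rw [om, if_neg (fun h => hp' h.1)]
    refine Finset.sum_eq_zero fun p _ => ?_
    by_cases hp : c.typ p = α
    · rw [hk.2.1 p p' (fun h => hp' (h.symm.trans hp))]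
      ring
    · rw [if_neg hp]
      ring

lemma act_ctr {L : ℕ} (α : A) {k : Matrix I I ℂ} (hk : k ∈ c.K) (u : Tn I (L + 2)) :
    c.ctr α (act k u) = act k (c.ctr α u) := by
  funext w
  have h1 : c.ctr α (act k u) w = ∑ p, ∑ q, ∑ p', ∑ q', ∑ w' : Fin L → I,
      (c.om α p q * (k p p' * k q q')) * ((∏ i, k (w i) (w' i)) *
        u (Fin.cons p' (Fin.cons q' w' : Fin (L + 1) → I))) := by
    unfold ctr act
    refine Finset.sum_congr rfl fun p _ => Finset.sum_congr rfl fun q _ => ?_
    rw [sum_cons, Finset.mul_sum]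
    refine Finset.sum_congr rfl fun p' _ => ?_
    rw [sum_cons, Finset.mul_sum]
    refine Finset.sum_congr rfl fun q' _ => ?_
    rw [Finset.mul_sum]
    refine Finset.sum_congr rfl fun w' _ => ?_
    rw [Fin.prod_univ_succ, Fin.prod_univ_succ]
    simp only [Fin.cons_zero, Fin.cons_succ]
    ring
  have h2 : act k (c.ctr α u) w = ∑ p', ∑ q', ∑ w' : Fin L → I,
      c.om α p' q' * ((∏ i, k (w i) (w' i)) *
        u (Fin.cons p' (Fin.cons q' w' : Fin (L + 1) → I))) := by
    unfold ctr act
    simp only [Finset.mul_sum]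
    rw [Finset.sum_comm]
    refine Finset.sum_congr rfl fun p' _ => ?_
    rw [Finset.sum_comm]
    refine Finset.sum_congr rfl fun q' _ => Finset.sum_congr rfl fun w' _ => by ring
  rw [h1, h2]
  have h3 : ∀ G : I → I → I → I → ℂ, ∑ p, ∑ q, ∑ p', ∑ q', G p q p' q' =
      ∑ p', ∑ q', ∑ p, ∑ q, G p q p' q' := by
    intro G
    have h4 : ∀ p, ∑ q, ∑ p', ∑ q', G p q p' q' = ∑ p', ∑ q', ∑ q, G p q p' q' := by
      intro p
      rw [Finset.sum_comm]
      refine Finset.sum_congr rfl fun p' _ => ?_
      rw [Finset.sum_comm]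
    simp only [h4]
    rw [Finset.sum_comm]
    refine Finset.sum_congr rfl fun p' _ => ?_
    rw [Finset.sum_comm]
  rw [h3 (fun p q p' q' => ∑ w' : Fin L → I, (c.om α p q * (k p p' * k q q')) *
    ((∏ i, k (w i) (w' i)) * u (Fin.cons p' (Fin.cons q' w' : Fin (L + 1) → I))))]
  refine Finset.sum_congr rfl fun p' _ => Finset.sum_congr rfl fun q' _ => ?_
  rw [← c.K_om α hk p' q']
  simp only [Finset.sum_mul]
  have h5 : ∀ G : I → I → (Fin L → I) → ℂ, ∑ p, ∑ q, ∑ w', G p q w' =
      ∑ w', ∑ p, ∑ q, G p q w' := by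
    intro G
    have h4 : ∀ p, ∑ q, ∑ w', G p q w' = ∑ w', ∑ q, G p q w' := fun p => Finset.sum_comm
    simp only [h4]
    rw [Finset.sum_comm]
  rw [h5]

/-- Matchings. -/
inductive IsM : (L : ℕ) → Tn I L → Prop
  | zero : IsM 0 (fun _ => 1)
  | ins (L : ℕ) (m : Tn I L) (α : A) : IsM L m → IsM (L + 2) (c.ins α m)
  | prm (L : ℕ) (m : Tn I L) (π : Equiv.Perm (Fin L)) : IsM L m → IsM L (prm π m)

/-- Invariants orthogonal to the matchings. -/
def UU {L : ℕ} (u : Tn I L) : Prop :=
  (∀ k ∈ c.K, act k u = u) ∧ ∀ m, c.IsM L m → ip m u = 0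

lemma UU_prm {L : ℕ} (π : Equiv.Perm (Fin L)) {u : Tn I L} (hu : c.UU u) : c.UU (prm π u) := by
  refine ⟨fun k hk => ?_, fun m hm => ?_⟩
  · rw [act_prm, hu.1 k hk]
  · rw [ip_prm]
    exact hu.2 _ (IsM.prm L m π⁻¹ hm)

lemma UU_ctr {L : ℕ} (α : A) {u : Tn I (L + 2)} (hu : c.UU u) : c.UU (c.ctr α u) := by
  refine ⟨fun k hk => ?_, fun m hm => ?_⟩
  · rw [← c.act_ctr α hk, hu.1 k hk]
  · rw [← ip_ins]
    exact hu.2 _ (IsM.ins L m α hm)

lemma exists_perm {L : ℕ} {i j : Fin (L + 2)} (hij : i ≠ j) :
    ∃ π : Equiv.Perm (Fin (L + 2)), π 0 = i ∧ π 1 = j := by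
  refine ⟨Equiv.swap 0 i * Equiv.swap 1 (Equiv.swap 0 i j), ?_, ?_⟩
  · rw [Equiv.Perm.mul_apply, Equiv.swap_apply_of_ne_of_ne (a := 1) (by simp), Equiv.swap_apply_left]
    intro h
    have h1 := congrArg (Equiv.swap 0 i) h
    rw [Equiv.swap_apply_left, Equiv.swap_apply_self] at h1
    exact hij h1
  · rw [Equiv.Perm.mul_apply, Equiv.swap_apply_left, Equiv.swap_apply_self]

theorem UU_zero : ∀ (L : ℕ) (u : Tn I L), c.UU u → u = 0 := by
  intro L
  induction L using Nat.strong_induction_on with
  | _ L ih =>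
    intro u hu
    rcases Nat.eq_zero_or_pos L with hL | hL
    · subst hL
      have h1 := hu.2 _ IsM.zero
      funext w
      unfold ip at h1
      rw [Fintype.sum_eq_single w (fun w' hw' => absurd (Subsingleton.elim _ _) hw')] at h1
      simpa using h1
    · have hDz : ∀ α, c.Dz α u := by
        intro α w
        have h1 := c.casimir α u w
        have h2 : ∑ a ∈ c.S α, ∑ b ∈ c.S α, der (c.X a b) (der (c.X b a) u) w = 0 := by
          refine Finset.sum_eq_zero fun a ha => Finset.sum_eq_zero fun b hb => ?_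
          exact der_zero _ _ (c.der_X_of_inv α u hu.1 (c.mem_S.1 hb) (c.mem_S.1 ha)) w
        have h3 : off (c.QQ α) u w = 0 := by
          unfold off
          refine Finset.sum_eq_zero fun i _ => Finset.sum_eq_zero fun j hj => ?_
          have hij : i ≠ j := by
            have : j ≠ i := by simpa using hj
            exact this.symm
          have h4 : c.Cc α i j u w = 0 := by
            obtain ⟨M, rfl⟩ : ∃ M, L = M + 2 := by
              have : 2 ≤ L := by
                by_contra h5
                have h6 : i.val = 0 := by omega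
                have h7 : j.val = 0 := by omega
                exact hij (Fin.ext (h6.trans h7.symm))
              exact ⟨L - 2, by omega⟩
            obtain ⟨π, h5, h6⟩ := exists_perm hij
            have h7 := ih M (by omega) _ (c.UU_ctr α (c.UU_prm π⁻¹ hu))
            have h8 := congrFun h7 (fun x => w (π x.succ.succ))
            rw [Pi.zero_apply] at h8
            rw [← h8]
            unfold Cc ctr prm
            refine Finset.sum_congr rfl fun r _ => Finset.sum_congr rfl fun s _ => ?_
            congr 2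
            funext t
            obtain ⟨x, rfl⟩ := π.surjective t
            have h9 : (⇑π⁻¹ : Fin (M + 2) → Fin (M + 2)) (π x) = x := π.symm_apply_apply x
            simp only [Function.comp_apply, h9]
            refine Fin.cases ?_ (fun y => ?_) x
            · rw [h5, Function.update_of_ne hij, Function.update_self, Fin.cons_zero]
            · refine Fin.cases ?_ (fun z => ?_) y
              · have h10 : (Fin.succ 0 : Fin (M + 2)) = 1 := rfl
                rw [h10, h6, Function.update_self]
                rfl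
              · have h10 : π z.succ.succ ≠ j := by
                  rw [← h6]
                  intro h11
                  have := π.injective h11
                  exact absurd this (by simp [Fin.ext_iff])
                have h11 : π z.succ.succ ≠ i := by
                  rw [← h5]
                  intro h12
                  have := π.injective h12
                  exact absurd this (by simp [Fin.ext_iff])
                rw [Function.update_of_ne h10, Function.update_of_ne h11, Fin.cons_succ,
                  Fin.cons_succ]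
          have h5 : ∑ r, ∑ s, c.QQ α (w i) r (w j) s *
              u (Function.update (Function.update w i r) j s) =
              c.om α (w i) (w j) * c.Cc α i j u w := by
            unfold Cc QQ
            rw [Finset.mul_sum]
            refine Finset.sum_congr rfl fun r _ => ?_
            rw [Finset.mul_sum]
            refine Finset.sum_congr rfl fun s _ => by ring
          rw [h5, h4, mul_zero]
        rw [h2, h3] at h1
        linear_combination (-1 / 2 : ℂ) * h1
      funext w
      by_contra hw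
      refine c.no_letter (c.typ (w ⟨0, hL⟩)) u (hDz _) ?_ w hw ⟨0, hL⟩ rfl
      intro h1 a ha w'
      have h2 := hu.1 _ (c.refl_mem_K (a := a) (by rw [ha, h1]))
      have h3 := congrFun h2 w'
      rw [act_diagonal] at h3
      exact h3

/-- Span of the matchings. -/
def MM (L : ℕ) : Submodule ℂ (Tn I L) := Submodule.span ℂ {m | c.IsM L m}

lemma act_add {L : ℕ} (k : Matrix I I ℂ) (u v : Tn I L) : act k (u + v) = act k u + act k v := by
  funext w
  unfold act
  rw [Pi.add_apply, ← Finset.sum_add_distrib]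
  refine Finset.sum_congr rfl fun w' _ => ?_
  rw [Pi.add_apply, mul_add]

lemma act_smul {L : ℕ} (k : Matrix I I ℂ) (z : ℂ) (u : Tn I L) :
    act k (z • u) = z • act k u := by
  funext w
  unfold act
  rw [Pi.smul_apply, smul_eq_mul, Finset.mul_sum]
  refine Finset.sum_congr rfl fun w' _ => ?_
  rw [Pi.smul_apply, smul_eq_mul]
  ring

lemma act_ins {L : ℕ} (α : A) {k : Matrix I I ℂ} (hk : k ∈ c.K) (m : Tn I L) :
    act k (c.ins α m) = c.ins α (act k m) := by
  have hkt : k.transpose ∈ c.K := by
    refine ⟨?_, fun a b h => hk.2.1 b a (fun h' => h h'.symm), fun a b => ?_⟩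
    · rw [Matrix.mem_unitaryGroup_iff']
      have h1 := (Matrix.mem_unitaryGroup_iff).1 hk.1
      rw [Matrix.star_eq_conjTranspose] at h1 ⊢
      have h2 := congrArg Matrix.transpose h1
      rw [Matrix.transpose_mul, Matrix.transpose_one] at h2
      exact h2
    · rw [Matrix.transpose_apply, Matrix.transpose_apply, hk.2.2]
      ring
  funext w
  have hw : w = Fin.cons (w 0) (Fin.cons (w 1) (fun i => w i.succ.succ) : Fin (L + 1) → I) := by
    funext i
    refine Fin.cases rfl (fun y => ?_) i
    refine Fin.cases rfl (fun z => ?_) y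
    rw [Fin.cons_succ, Fin.cons_succ]
  unfold act
  rw [sum_cons]
  simp only [sum_cons (L := L), c.ins_cons, Fin.prod_univ_succ, Fin.cons_zero, Fin.cons_succ]
  have h1 := c.K_om α hkt (w 0) (w 1)
  simp only [Matrix.transpose_apply] at h1
  show _ = c.om α (w 0) (w 1) * ∑ w' : Fin L → I, (∏ i, k (w i.succ.succ) (w' i)) * m w'
  rw [← h1, Finset.sum_mul]
  refine Finset.sum_congr rfl fun p _ => ?_
  rw [Finset.sum_mul]
  refine Finset.sum_congr rfl fun q _ => ?_
  rw [Finset.mul_sum]
  refine Finset.sum_congr rfl fun w' _ => ?_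
  have h2 : (Fin.succ 0 : Fin (L + 2)) = 1 := rfl
  rw [h2]
  ring

lemma IsM_inv {L : ℕ} {m : Tn I L} (hm : c.IsM L m) : ∀ k ∈ c.K, act k m = m := by
  induction hm with
  | zero =>
    intro k _
    funext w
    unfold act
    rw [Fintype.sum_eq_single w (fun w' hw' => absurd (Subsingleton.elim _ _) hw')]
    simp
  | ins L m α _ ih =>
    intro k hk
    rw [c.act_ins α hk, ih k hk]
  | prm L m π _ ih =>
    intro k hk
    rw [act_prm, ih k hk]

lemma MM_inv {L : ℕ} {m : Tn I L} (hm : m ∈ c.MM L) : ∀ k ∈ c.K, act k m = m := by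
  intro k hk
  induction hm using Submodule.span_induction with
  | mem x hx => exact c.IsM_inv hx k hk
  | zero =>
    funext w
    unfold act
    refine Finset.sum_eq_zero fun w' _ => ?_
    rw [Pi.zero_apply, mul_zero]
  | add x y _ _ hx hy => rw [act_add, hx, hy]
  | smul z x _ hx => rw [act_smul, hx]

/-- Orthogonal decomposition of tensors. -/
lemma exists_decomp {L : ℕ} (W : Submodule ℂ (Tn I L)) (u : Tn I L) :
    ∃ m ∈ W, ∀ x ∈ W, ip x (u - m) = 0 := by
  let e : EuclideanSpace ℂ (Fin L → I) ≃ₗ[ℂ] Tn I L := WithLp.linearEquiv 2 ℂ _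
  let W' : Submodule ℂ (EuclideanSpace ℂ (Fin L → I)) := W.comap e.toLinearMap
  obtain ⟨y, hy, z, hz, hyz⟩ := W'.exists_add_mem_mem_orthogonal (e.symm u)
  refine ⟨e y, hy, fun x hx => ?_⟩
  have h1 : e.symm x ∈ W' := by
    show e (e.symm x) ∈ W
    rw [LinearEquiv.apply_symm_apply]; exact hx
  have h2 := (Submodule.mem_orthogonal W' z).1 hz (e.symm x) h1
  have h3 : u - e y = e z := by
    have : u = e (e.symm u) := (LinearEquiv.apply_symm_apply e u).symm
    rw [this, hyz, map_add, add_sub_cancel_left]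
  rw [h3]
  rw [PiLp.inner_apply] at h2
  rw [← h2]
  unfold ip
  refine Finset.sum_congr rfl fun w _ => ?_
  rw [RCLike.inner_apply]
  rw [mul_comm]
  rfl

theorem mem_MM {L : ℕ} (u : Tn I L) (hu : ∀ k ∈ c.K, act k u = u) : u ∈ c.MM L := by
  obtain ⟨m, hm, hx⟩ := exists_decomp (c.MM L) u
  have h1 : c.UU (u - m) := by
    refine ⟨fun k hk => ?_, fun x hx' => hx x (Submodule.subset_span hx')⟩
    have h2 : u - m = u + (-1 : ℂ) • m := by rw [neg_smul, one_smul, sub_eq_add_neg]
    rw [h2, act_add, act_smul, hu k hk, c.MM_inv hm k hk]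
  have h2 := c.UU_zero L _ h1
  rw [sub_eq_zero] at h2
  rw [h2]
  exact hm

/-- **First fundamental theorem**: a system of subspaces closed under insertion of `om` and
permutations contains all `K`-invariant tensors. -/
theorem fft (M : ∀ L, Submodule ℂ (Tn I L)) (h0 : (fun _ => 1) ∈ M 0)
    (hprm : ∀ (L : ℕ) (m : Tn I L) (π : Equiv.Perm (Fin L)), m ∈ M L →
      (fun w => m (w ∘ π)) ∈ M L)
    (hins : ∀ (L : ℕ) (m : Tn I L) (α : A), m ∈ M L →
      (fun w : Fin (L + 2) → I => c.om α (w 0) (w 1) * m (fun i => w i.succ.succ)) ∈ M (L + 2))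
    {L : ℕ} (u : Tn I L) (hu : ∀ k ∈ c.K, act k u = u) : u ∈ M L := by
  have h1 : ∀ (L : ℕ) (m : Tn I L), c.IsM L m → m ∈ M L := by
    intro L m hm
    induction hm with
    | zero => exact h0
    | ins L m α _ ih => exact hins L m α ih
    | prm L m π _ ih => exact hprm L m π ih
  have h2 := c.mem_MM u hu
  exact (Submodule.span_le.2 (fun m hm => h1 L m hm)) h2

end Crd

end MP361RM
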