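import Mathlib

/-!
# First fundamental theorem (finite products of orthogonal and compact symplectic groups),
Casimir proof, in standard coordinates.
-/

open Finset

open scoped BigOperators ComplexConjugate

set_option linter.unusedSectionVars false

namespace MP361RM

/-- Standard coordinates: letters `A`, basis `I`, `J e_a = sg a e_(bar a)`. -/
structure Crd (A I : Type) where
  typ : I → A
  bar : I → I
  sg : I → ℂ
  eps : A → ℂ
  bar_bar : ∀ a, bar (bar a) = a
  typ_bar : ∀ a, typ (bar a) = typ a
  sg_pm : ∀ a, sg a = 1 ∨ sg a = -1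
  eps_pm : ∀ α, eps α = 1 ∨ eps α = -1
  sg_bar : ∀ a, sg a * sg (bar a) = eps (typ a)
  real : ∀ a, eps (typ a) = 1 → bar a = a

/-- Tensors of length `L` in coordinates. -/
abbrev Tn (I : Type) (L : ℕ) := (Fin L → I) → ℂ

variable {A I : Type} [Fintype I] [DecidableEq I] [DecidableEq A]

/-- Diagonal action of a matrix on tensors. -/
def act (g : Matrix I I ℂ) {L : ℕ} (u : Tn I L) : Tn I L :=
  fun w => ∑ w', (∏ i, g (w i) (w' i)) * u w'

namespace Crd

variable (c : Crd A I)

/-- The compact group: unitary, type preserving, commuting with `J`. -/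
def K : Set (Matrix I I ℂ) :=
  {k | k ∈ Matrix.unitaryGroup I ℂ ∧ (∀ a b, c.typ a ≠ c.typ b → k a b = 0) ∧
    ∀ a b, k (c.bar a) (c.bar b) = c.sg a * c.sg b * conj (k a b)}

/-- The tensor `omega` of one letter. -/
def om (α : A) (p q : I) : ℂ := if c.typ p = α ∧ q = c.bar p then c.sg p else 0

lemma sg_sq (a : I) : c.sg a * c.sg a = 1 := by
  rcases c.sg_pm a with h | h <;> rw [h] <;> norm_num

lemma sg_conj (a : I) : conj (c.sg a) = c.sg a := by
  rcases c.sg_pm a with h | h <;> rw [h] <;> simp

lemma eps_sq (α : A) : c.eps α * c.eps α = 1 := by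
  rcases c.eps_pm α with h | h <;> rw [h] <;> norm_num

lemma bar_inj {a b : I} (h : c.bar a = c.bar b) : a = b := by
  rw [← c.bar_bar a, h, c.bar_bar]

lemma eq_bar_iff {a b : I} : a = c.bar b ↔ b = c.bar a := by
  constructor
  · intro h; rw [h, c.bar_bar]
  · intro h; rw [h, c.bar_bar]

lemma om_conj (α : A) (p q : I) : conj (c.om α p q) = c.om α p q := by
  unfold om; split_ifs <;> simp [c.sg_conj]

lemma om_swap (α : A) (p q : I) : c.om α q p = c.eps α * c.om α p q := by
  unfold om
  by_cases hq : c.typ q = α ∧ p = c.bar q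
  · obtain ⟨h1, h2⟩ := hq
    have h3 : q = c.bar p := by rw [h2, c.bar_bar]
    have h4 : c.typ p = α := by rw [h2, c.typ_bar, h1]
    rw [if_pos ⟨h1, h2⟩, if_pos ⟨h4, h3⟩]
    have h5 := c.sg_bar p
    rw [← h3, h4] at h5
    rw [← h5]
    linear_combination (-c.sg q) * c.sg_sq p
  · rw [if_neg hq, if_neg, mul_zero]
    rintro ⟨h1, h2⟩
    exact hq ⟨by rw [h2, c.typ_bar, h1], by rw [h2, c.bar_bar]⟩

end Crd

/-! ## Slot operators -/

/-- Matrix acting on one slot. -/
def sl {L : ℕ} (i : Fin L) (X : Matrix I I ℂ) (u : Tn I L) : Tn I L :=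
  fun w => ∑ b, X (w i) b * u (Function.update w i b)

/-- Derivation given by a matrix. -/
def der {L : ℕ} (X : Matrix I I ℂ) (u : Tn I L) : Tn I L :=
  fun w => ∑ i, sl i X u w

/-- Hermitian form on tensors. -/
def ip {L : ℕ} (u v : Tn I L) : ℂ := ∑ w, conj (u w) * v w

/-- The involution exchanging a slot with an outside letter. -/
def exch {L : ℕ} (i : Fin L) : Equiv.Perm ((Fin L → I) × I) where
  toFun p := (Function.update p.1 i p.2, p.1 i)
  invFun p := (Function.update p.1 i p.2, p.1 i)
  left_inv p := by simp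
  right_inv p := by simp

lemma sum_exch {L : ℕ} (i : Fin L) (F : (Fin L → I) → I → ℂ) :
    ∑ w, ∑ b, F w b = ∑ w, ∑ b, F (Function.update w i b) (w i) := by
  rw [← Fintype.sum_prod_type', ← Fintype.sum_prod_type']
  exact (Equiv.sum_comp (exch i) (fun p : (Fin L → I) × I => F p.1 p.2)).symm

lemma ip_sl {L : ℕ} (i : Fin L) (X : Matrix I I ℂ) (u v : Tn I L) :
    ip (sl i X u) v = ip u (sl i X.conjTranspose v) := by
  unfold ip sl
  simp only [map_sum, map_mul, Finset.sum_mul, Finset.mul_sum]
  rw [sum_exch i]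
  refine Finset.sum_congr rfl fun w _ => Finset.sum_congr rfl fun b _ => ?_
  simp only [Function.update_self, Function.update_idem, Function.update_eq_self,
    Matrix.conjTranspose_apply]
  simp only [RCLike.star_def]
  ring

lemma ip_der {L : ℕ} (X : Matrix I I ℂ) (u v : Tn I L) :
    ip (der X u) v = ip u (der X.conjTranspose v) := by
  have h : ∀ (Y : Matrix I I ℂ) (x y : Tn I L), ip x (der Y y) = ∑ i, ip x (sl i Y y) := by
    intro Y x y
    unfold ip der
    simp only [Finset.mul_sum]
    exact Finset.sum_comm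
  have h' : ∀ (Y : Matrix I I ℂ) (x y : Tn I L), ip (der Y x) y = ∑ i, ip (sl i Y x) y := by
    intro Y x y
    unfold ip der
    simp only [map_sum, Finset.sum_mul]
    exact Finset.sum_comm
  rw [h, h']
  exact Finset.sum_congr rfl fun i _ => ip_sl i X u v

lemma sl_sl_same {L : ℕ} (i : Fin L) (X Y : Matrix I I ℂ) (u : Tn I L) (w : Fin L → I) :
    sl i X (sl i Y u) w = ∑ b, (∑ a, X (w i) a * Y a b) * u (Function.update w i b) := by
  unfold sl
  simp only [Function.update_self, Function.update_idem, Finset.mul_sum, Finset.sum_mul]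
  rw [Finset.sum_comm]
  refine Finset.sum_congr rfl fun b _ => Finset.sum_congr rfl fun a _ => by ring

lemma sl_sl_ne {L : ℕ} {i j : Fin L} (hij : i ≠ j) (X Y : Matrix I I ℂ) (u : Tn I L)
    (w : Fin L → I) :
    sl i X (sl j Y u) w = ∑ a, ∑ b, X (w i) a * Y (w j) b *
      u (Function.update (Function.update w i a) j b) := by
  unfold sl
  simp only [Finset.mul_sum]
  refine Finset.sum_congr rfl fun a _ => Finset.sum_congr rfl fun b _ => ?_
  rw [Function.update_of_ne hij.symm]
  ring

/-- Off diagonal part of a product of two derivations. -/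
def off {L : ℕ} (T : I → I → I → I → ℂ) (u : Tn I L) : Tn I L :=
  fun w => ∑ i, ∑ j ∈ univ.filter (· ≠ i), ∑ a, ∑ b, T (w i) a (w j) b *
    u (Function.update (Function.update w i a) j b)

lemma der_der {L : ℕ} (X Y : Matrix I I ℂ) (u : Tn I L) (w : Fin L → I) :
    der X (der Y u) w = (∑ i, ∑ b, (∑ a, X (w i) a * Y a b) * u (Function.update w i b)) +
      off (fun p a q b => X p a * Y q b) u w := by
  have h : ∀ i, sl i X (der Y u) w = ∑ j, sl i X (sl j Y u) w := by
    intro i
    unfold der sl
    simp only [Finset.mul_sum]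
    exact Finset.sum_comm
  unfold der
  unfold der at h
  simp only [h]
  unfold off
  rw [← Finset.sum_add_distrib]
  refine Finset.sum_congr rfl fun i _ => ?_
  rw [← Finset.sum_filter_add_sum_filter_not univ (fun j => j ≠ i), add_comm]
  congr 1
  · have : (univ.filter (fun j : Fin L => ¬ j ≠ i)) = {i} := by
      ext j; simp
    rw [this, Finset.sum_singleton, sl_sl_same]
  · refine Finset.sum_congr rfl fun j hj => ?_
    have hj' : j ≠ i := by simpa using hj
    rw [sl_sl_ne hj'.symm]

lemma off_congr {L : ℕ} {T T' : I → I → I → I → ℂ} (h : ∀ p a q b, T p a q b = T' p a q b)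
    (u : Tn I L) (w : Fin L → I) : off T u w = off T' u w := by
  unfold off
  simp only [h]

/-! ## The Casimir identity -/

namespace Crd

variable (c : Crd A I)

/-- The basis letters of type `α`. -/
def S (α : A) : Finset I := univ.filter (fun a => c.typ a = α)

lemma mem_S {α : A} {a : I} : a ∈ c.S α ↔ c.typ a = α := by simp [S]

/-- Generators of the complexified Lie algebra. -/
def X (a b : I) : Matrix I I ℂ :=
  fun p q => (if p = a ∧ q = b then 1 else 0) -
    (if p = c.bar b ∧ q = c.bar a then c.sg a * c.sg b else 0)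

lemma X_conjTranspose (a b : I) : (c.X a b).conjTranspose = c.X b a := by
  ext p q
  simp only [Matrix.conjTranspose_apply, X]
  rw [star_sub]
  congr 1
  · by_cases h : q = a ∧ p = b
    · rw [if_pos h, if_pos h.symm, star_one]
    · rw [if_neg h, if_neg (fun h' => h h'.symm), star_zero]
  · by_cases h : q = c.bar b ∧ p = c.bar a
    · rw [if_pos h, if_pos h.symm, star_mul']
      simp only [RCLike.star_def, c.sg_conj]
      ring
    · rw [if_neg h, if_neg (fun h' => h h'.symm), star_zero]

lemma dsum (S : Finset I) (p r : I) (f : I → I → ℂ) :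
    ∑ a ∈ S, ∑ b ∈ S, (if p = a ∧ r = b then f a b else 0) =
      if p ∈ S ∧ r ∈ S then f p r else 0 := by
  have h : ∀ a ∈ S, ∑ b ∈ S, (if p = a ∧ r = b then f a b else 0) =
      if p = a then (if r ∈ S then f p r else 0) else 0 := by
    intro a _
    by_cases hp : p = a
    · subst hp
      simp
    · simp [hp]
  rw [Finset.sum_congr rfl h]
  by_cases hp : p ∈ S
  · by_cases hr : r ∈ S <;> simp [hp, hr]
  · simp [hp]

lemma sg_bar' (a : I) : c.sg (c.bar a) = c.eps (c.typ a) * c.sg a := by
  linear_combination (-c.sg (c.bar a)) * c.sg_sq a + c.sg a * c.sg_bar a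

lemma M2 (α : A) (p r q s : I) :
    ∑ a ∈ c.S α, ∑ b ∈ c.S α, c.X a b p r * c.X b a q s =
      2 * (if c.typ p = α ∧ c.typ q = α ∧ p = s ∧ q = r then 1 else 0) -
        2 * (c.om α p q * c.om α r s) := by
  have h1 : ∀ a b, c.X a b p r * c.X b a q s =
      (if p = a ∧ r = b then c.X b a q s else 0) -
      (if c.bar r = a ∧ c.bar p = b then c.sg a * c.sg b * c.X b a q s else 0) := by
    intro a b
    have e1 : c.X a b p r = (if p = a ∧ r = b then 1 else 0) -
      (if c.bar r = a ∧ c.bar p = b then c.sg a * c.sg b else 0) := by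
      unfold X
      congr 1
      refine if_congr ?_ rfl rfl
      constructor
      · rintro ⟨h, h'⟩
        exact ⟨by rw [h', c.bar_bar], by rw [h, c.bar_bar]⟩
      · rintro ⟨h, h'⟩
        exact ⟨by rw [← h', c.bar_bar], by rw [← h, c.bar_bar]⟩
    rw [e1, sub_mul]
    congr 1
    · split_ifs <;> simp
    · split_ifs <;> simp
  simp only [h1, Finset.sum_sub_distrib]
  rw [dsum (c.S α) p r (fun a b => c.X b a q s),
    dsum (c.S α) (c.bar r) (c.bar p) (fun a b => c.sg a * c.sg b * c.X b a q s)]
  simp only [mem_S, c.typ_bar]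
  by_cases hp : c.typ p = α
  · by_cases hr : c.typ r = α
    · rw [if_pos ⟨hp, hr⟩, if_pos ⟨hr, hp⟩]
      have hb1 := c.sg_bar' p
      have hb2 := c.sg_bar' r
      rw [hp] at hb1
      rw [hr] at hb2
      have he := c.eps_sq α
      have s1 := c.sg_sq p
      have s2 := c.sg_sq r
      have e1 : c.sg (c.bar r) * c.sg (c.bar p) = c.sg r * c.sg p := by
        rw [hb1, hb2]; linear_combination (c.sg r * c.sg p) * he
      have e2 : (c.sg r * c.sg p) * (c.sg r * c.sg p) = 1 := by
        linear_combination (c.sg r * c.sg r) * s1 + s2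
      have t1 : c.X r p q s = (if q = r ∧ s = p then 1 else 0) -
          (if q = c.bar p ∧ s = c.bar r then 1 else 0) * (c.sg r * c.sg p) := by
        unfold X; split_ifs <;> ring
      have t2 : c.X (c.bar p) (c.bar r) q s = (if q = c.bar p ∧ s = c.bar r then 1 else 0) -
          (if q = r ∧ s = p then 1 else 0) * (c.sg r * c.sg p) := by
        unfold X
        rw [c.bar_bar, c.bar_bar, mul_comm (c.sg (c.bar p)), e1]
        split_ifs <;> ring
      have t3 : (if c.typ p = α ∧ c.typ q = α ∧ p = s ∧ q = r then (1 : ℂ) else 0) =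
          (if q = r ∧ s = p then 1 else 0) := by
        refine if_congr ?_ rfl rfl
        constructor
        · rintro ⟨_, _, h3, h4⟩; exact ⟨h4, h3.symm⟩
        · rintro ⟨h3, h4⟩; exact ⟨hp, by rw [h3, hr], h4.symm, h3⟩
      have t4 : c.om α p q * c.om α r s =
          (if q = c.bar p ∧ s = c.bar r then 1 else 0) * (c.sg r * c.sg p) := by
        unfold om
        simp only [hp, hr, true_and]
        by_cases h1 : q = c.bar p
        · by_cases h2 : s = c.bar r
          · simp only [h1, h2, and_self, if_true]; ring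
          · simp only [h1, h2, and_false, if_false]; ring
        · simp only [h1, false_and, if_false]; ring
      rw [t1, t2, t3, t4, e1]
      linear_combination (if q = r ∧ s = p then (1 : ℂ) else 0) * e2
    · rw [if_neg (fun h => hr h.2), if_neg (fun h => hr h.1), if_neg, om, om,
        if_neg (c := (c.typ r = α ∧ s = c.bar r)) (fun h => hr h.1)]
      · ring
      · rintro ⟨_, h2, _, h4⟩
        exact hr (by rw [← h4, h2])
  · rw [if_neg (fun h => hp h.1), if_neg (fun h => hp h.2), if_neg (fun h => hp h.1), om,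
      if_neg (fun h => hp h.1)]
    ring

/-- number of slots of type `α`. -/
def len {L : ℕ} (α : A) (w : Fin L → I) : ℂ := ∑ i, if c.typ (w i) = α then 1 else 0

lemma sum_om_om (α : A) (p b : I) :
    ∑ t, c.om α p t * c.om α t b = if c.typ p = α ∧ p = b then c.eps α else 0 := by
  by_cases hp : c.typ p = α
  · rw [Finset.sum_eq_single (c.bar p)]
    · unfold om
      have h := c.sg_bar p
      rw [hp] at h
      simp only [hp, c.typ_bar, c.bar_bar, true_and, if_true]
      by_cases hb : b = p
      · rw [if_pos hb, if_pos hb.symm, h]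
      · rw [if_neg hb, if_neg (fun h => hb h.symm), mul_zero]
    · intro t _ ht
      rw [om, if_neg (fun h => ht h.2), zero_mul]
    · intro h; exact absurd (Finset.mem_univ _) h
  · rw [if_neg (fun h => hp h.1)]
    refine Finset.sum_eq_zero fun t _ => ?_
    rw [om, if_neg (fun h => hp h.1), zero_mul]

/-- kernel of the flips. -/
def PP (α : A) (p a q b : I) : ℂ :=
  if c.typ p = α ∧ c.typ q = α ∧ p = b ∧ q = a then 1 else 0

/-- kernel of insertion after contraction. -/
def QQ (α : A) (p a q b : I) : ℂ := c.om α p q * c.om α a b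

theorem casimir {L : ℕ} (α : A) (v : Tn I L) (w : Fin L → I) :
    ∑ a ∈ c.S α, ∑ b ∈ c.S α, der (c.X a b) (der (c.X b a) v) w =
      2 * ((((c.S α).card : ℂ) - c.eps α) * c.len α w * v w + off (c.PP α) v w) -
        2 * off (c.QQ α) v w := by
  simp only [der_der, Finset.sum_add_distrib]
  have hoff : ∑ a ∈ c.S α, ∑ b ∈ c.S α, off (fun p r q s => c.X a b p r * c.X b a q s) v w =
      2 * off (c.PP α) v w - 2 * off (c.QQ α) v w := by
    have h : ∀ T : I → I → I → I → I → I → ℂ, ∑ a ∈ c.S α, ∑ b ∈ c.S α, off (T a b) v w =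
        off (fun p r q s => ∑ a ∈ c.S α, ∑ b ∈ c.S α, T a b p r q s) v w := by
      intro T
      unfold off
      simp only [Finset.sum_mul]
      have h1 : ∀ a ∈ c.S α, ∑ b ∈ c.S α, ∑ i, ∑ j ∈ univ.filter (· ≠ i), ∑ r, ∑ s,
          T a b (w i) r (w j) s * v (Function.update (Function.update w i r) j s) =
          ∑ i, ∑ j ∈ univ.filter (· ≠ i), ∑ r, ∑ s, ∑ b ∈ c.S α,
          T a b (w i) r (w j) s * v (Function.update (Function.update w i r) j s) := by
        intro a _
        rw [Finset.sum_comm]
        refine Finset.sum_congr rfl fun i _ => ?_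
        rw [Finset.sum_comm]
        refine Finset.sum_congr rfl fun j _ => ?_
        rw [Finset.sum_comm]
        refine Finset.sum_congr rfl fun r _ => ?_
        rw [Finset.sum_comm]
      rw [Finset.sum_congr rfl h1, Finset.sum_comm]
      refine Finset.sum_congr rfl fun i _ => ?_
      rw [Finset.sum_comm]
      refine Finset.sum_congr rfl fun j _ => ?_
      rw [Finset.sum_comm]
      refine Finset.sum_congr rfl fun r _ => ?_
      rw [Finset.sum_comm]
    rw [h]
    rw [off_congr (T' := fun p a q b => 2 * c.PP α p a q b - 2 * c.QQ α p a q b)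
      (fun p r q s => c.M2 α p r q s)]
    unfold off
    simp only [sub_mul, Finset.sum_sub_distrib, mul_assoc, Finset.mul_sum]
  rw [hoff]
  have hdiag : ∑ a ∈ c.S α, ∑ b ∈ c.S α, ∑ i, ∑ s, (∑ t, c.X a b (w i) t * c.X b a t s) *
      v (Function.update w i s) = 2 * (((c.S α).card : ℂ) - c.eps α) * c.len α w * v w := by
    have h1 : ∑ a ∈ c.S α, ∑ b ∈ c.S α, ∑ i, ∑ s, (∑ t, c.X a b (w i) t * c.X b a t s) *
      v (Function.update w i s) = ∑ i, ∑ s, (∑ t, ∑ a ∈ c.S α, ∑ b ∈ c.S α,
        c.X a b (w i) t * c.X b a t s) * v (Function.update w i s) := by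
      have h1 : ∀ a ∈ c.S α, ∑ b ∈ c.S α, ∑ i, ∑ s, (∑ t, c.X a b (w i) t * c.X b a t s) *
          v (Function.update w i s) = ∑ i, ∑ s, (∑ t, ∑ b ∈ c.S α,
          c.X a b (w i) t * c.X b a t s) * v (Function.update w i s) := by
        intro a _
        rw [Finset.sum_comm]
        refine Finset.sum_congr rfl fun i _ => ?_
        rw [Finset.sum_comm]
        refine Finset.sum_congr rfl fun s _ => ?_
        rw [← Finset.sum_mul, Finset.sum_comm]
      rw [Finset.sum_congr rfl h1, Finset.sum_comm]
      refine Finset.sum_congr rfl fun i _ => ?_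
      rw [Finset.sum_comm]
      refine Finset.sum_congr rfl fun s _ => ?_
      rw [← Finset.sum_mul, Finset.sum_comm]
    rw [h1]
    have h2 : ∀ i s, (∑ t, ∑ a ∈ c.S α, ∑ b ∈ c.S α, c.X a b (w i) t * c.X b a t s) =
        if w i = s then (if c.typ (w i) = α then 2 * (((c.S α).card : ℂ) - c.eps α) else 0)
          else 0 := by
      intro i s
      have h3 : ∀ t, ∑ a ∈ c.S α, ∑ b ∈ c.S α, c.X a b (w i) t * c.X b a t s =
          2 * (if c.typ (w i) = α ∧ c.typ t = α ∧ w i = s then 1 else 0) -
          2 * (c.om α (w i) t * c.om α t s) := by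
        intro t
        rw [c.M2 α (w i) t t s]
        simp only [and_true]
      simp only [h3, Finset.sum_sub_distrib, ← Finset.mul_sum]
      rw [c.sum_om_om]
      have h4 : ∑ t, (if c.typ (w i) = α ∧ c.typ t = α ∧ w i = s then (1 : ℂ) else 0) =
          if c.typ (w i) = α ∧ w i = s then ((c.S α).card : ℂ) else 0 := by
        by_cases h5 : c.typ (w i) = α ∧ w i = s
        · rw [if_pos h5, S, Finset.card_filter, Nat.cast_sum]
          refine Finset.sum_congr rfl fun t _ => ?_
          by_cases h6 : c.typ t = α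
          · rw [if_pos ⟨h5.1, h6, h5.2⟩, if_pos h6, Nat.cast_one]
          · rw [if_neg (fun h => h6 h.2.1), if_neg h6, Nat.cast_zero]
        · rw [if_neg h5]
          refine Finset.sum_eq_zero fun t _ => ?_
          rw [if_neg]
          rintro ⟨h6, _, h7⟩
          exact h5 ⟨h6, h7⟩
      rw [h4]
      by_cases h5 : c.typ (w i) = α
      · by_cases h6 : w i = s
        · rw [if_pos ⟨h5, h6⟩, if_pos ⟨h5, h6⟩, if_pos h6, if_pos h5]; ring
        · rw [if_neg (fun h => h6 h.2), if_neg (fun h => h6 h.2), if_neg h6]; ring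
      · rw [if_neg (fun h => h5 h.1), if_neg (fun h => h5 h.1), if_neg h5]; simp
    simp only [h2]
    have h6 : ∀ i, ∑ s, (if w i = s then (if c.typ (w i) = α then
        2 * (((c.S α).card : ℂ) - c.eps α) else 0) else 0) * v (Function.update w i s) =
        (2 * (((c.S α).card : ℂ) - c.eps α) * v w) * (if c.typ (w i) = α then 1 else 0) := by
      intro i
      rw [Finset.sum_eq_single (w i)]
      · rw [if_pos rfl, Function.update_eq_self]
        split_ifs <;> ring
      · intro s _ hs
        rw [if_neg (fun h => hs h.symm), zero_mul]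
      · intro h; exact absurd (Finset.mem_univ _) h
    simp only [h6]
    rw [← Finset.mul_sum]
    unfold len
    ring
  rw [hdiag]
  ring

/-- `D v = 0`. -/
def Dz {L : ℕ} (α : A) (v : Tn I L) : Prop :=
  ∀ w, (((c.S α).card : ℂ) - c.eps α) * c.len α w * v w + off (c.PP α) v w = 0

end Crd

lemma sum_update {L : ℕ} (i : Fin L) (F : (Fin L → I) → ℂ) :
    (Fintype.card I : ℂ) * ∑ w, F w = ∑ w, ∑ b, F (Function.update w i b) := by
  have h := sum_exch i (fun w _ => F w)
  simp only [Finset.sum_const, Finset.card_univ, nsmul_eq_mul] at h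
  rw [Finset.mul_sum, h]

lemma ip_self_re {L : ℕ} (u : Tn I L) : ip u u = ((∑ w, ‖u w‖ ^ 2 : ℝ) : ℂ) := by
  unfold ip
  push_cast
  refine Finset.sum_congr rfl fun w _ => ?_
  rw [← Complex.conj_mul']

namespace Crd

variable (c : Crd A I)

/-- contraction with `om`, inserted letters erased. -/
def Cc {L : ℕ} (α : A) (i j : Fin L) (v : Tn I L) (w : Fin L → I) : ℂ :=
  ∑ r, ∑ s, c.om α r s * v (Function.update (Function.update w i r) j s)

lemma Cc_update {L : ℕ} (α : A) {i j : Fin L} (hij : i ≠ j) (v : Tn I L) (w : Fin L → I)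
    (r s : I) : c.Cc α i j v (Function.update (Function.update w i r) j s) = c.Cc α i j v w := by
  unfold Cc
  refine Finset.sum_congr rfl fun r' _ => Finset.sum_congr rfl fun s' _ => ?_
  congr 2
  funext t
  by_cases h1 : t = j
  · subst h1; simp
  · by_cases h2 : t = i
    · subst h2; simp [h1]
    · simp [h1, h2]

lemma quad_nonneg {L : ℕ} (α : A) {i j : Fin L} (hij : i ≠ j) (v : Tn I L) :
    (Fintype.card I : ℂ) * ((Fintype.card I : ℂ) *
      ∑ w, conj (v w) * (c.om α (w i) (w j) * c.Cc α i j v w)) =
      ((∑ w, ‖c.Cc α i j v w‖ ^ 2 : ℝ) : ℂ) := by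
  rw [sum_update j, sum_update i]
  push_cast
  refine Finset.sum_congr rfl fun w _ => ?_
  have h : ∀ r s : I, conj (v (Function.update (Function.update w i r) j s)) *
      (c.om α (Function.update (Function.update w i r) j s i)
        (Function.update (Function.update w i r) j s j) *
        c.Cc α i j v (Function.update (Function.update w i r) j s)) =
      conj (c.om α r s * v (Function.update (Function.update w i r) j s)) *
        c.Cc α i j v w := by
    intro r s
    rw [c.Cc_update α hij, Function.update_self, Function.update_of_ne hij,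
      Function.update_self, map_mul, c.om_conj]
    ring
  simp only [h]
  simp only [← Finset.sum_mul]
  rw [← Complex.conj_mul']
  congr 1
  unfold Cc
  simp only [map_sum]

lemma ip_off_QQ {L : ℕ} (α : A) (v : Tn I L) :
    ∃ x : ℝ, 0 ≤ x ∧ ip v (off (c.QQ α) v) = (x : ℂ) := by
  rcases isEmpty_or_nonempty I with hI | hI
  · refine ⟨0, le_refl _, ?_⟩
    unfold ip
    rw [Complex.ofReal_zero]
    refine Finset.sum_eq_zero fun w _ => ?_
    have : off (c.QQ α) v w = 0 := by
      unfold off
      refine Finset.sum_eq_zero fun i _ => ?_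
      exact (hI.false (w i)).elim
    rw [this, mul_zero]
  have hc : (0 : ℝ) < (Fintype.card I : ℝ) := by exact_mod_cast Fintype.card_pos
  refine ⟨∑ i, ∑ j ∈ univ.filter (· ≠ i),
    (∑ w, ‖c.Cc α i j v w‖ ^ 2 : ℝ) / ((Fintype.card I : ℝ) * (Fintype.card I : ℝ)), ?_, ?_⟩
  · refine Finset.sum_nonneg fun i _ => Finset.sum_nonneg fun j _ => ?_
    positivity
  · have h1 : ip v (off (c.QQ α) v) = ∑ i, ∑ j ∈ univ.filter (· ≠ i),
        ∑ w, conj (v w) * (c.om α (w i) (w j) * c.Cc α i j v w) := by
      unfold ip off Cc QQ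
      simp only [Finset.mul_sum]
      rw [Finset.sum_comm]
      refine Finset.sum_congr rfl fun i _ => ?_
      rw [Finset.sum_comm]
      refine Finset.sum_congr rfl fun j _ => ?_
      refine Finset.sum_congr rfl fun w _ => ?_
      refine Finset.sum_congr rfl fun r _ => ?_
      refine Finset.sum_congr rfl fun s _ => ?_
      ring
    rw [h1]
    push_cast
    refine Finset.sum_congr rfl fun i _ => ?_
    refine Finset.sum_congr rfl fun j hj => ?_
    have hj' : i ≠ j := by
      have : j ≠ i := by simpa using hj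
      exact this.symm
    have h2 := c.quad_nonneg α hj' v
    push_cast at h2
    rw [← h2]
    have hc' : (Fintype.card I : ℂ) ≠ 0 := by
      have : Fintype.card I ≠ 0 := Fintype.card_ne_zero
      exact_mod_cast this
    field_simp

theorem der_X_of_Dz {L : ℕ} (α : A) (v : Tn I L) (hv : c.Dz α v) {a b : I}
    (ha : c.typ a = α) (hb : c.typ b = α) : ∀ w, der (c.X a b) v w = 0 := by
  obtain ⟨x, hx, hx'⟩ := c.ip_off_QQ α v
  have h1 : ∑ a ∈ c.S α, ∑ b ∈ c.S α, ip v (der (c.X a b) (der (c.X b a) v)) =
      - (2 * (x : ℂ)) := by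
    have h2 : ∀ w, ∑ a ∈ c.S α, ∑ b ∈ c.S α, der (c.X a b) (der (c.X b a) v) w =
        - (2 * off (c.QQ α) v w) := by
      intro w
      rw [c.casimir α v w, hv w]
      ring
    rw [← hx']
    unfold ip
    have h3 : ∀ a ∈ c.S α, ∑ b ∈ c.S α, ∑ w, conj (v w) * der (c.X a b) (der (c.X b a) v) w =
        ∑ w, conj (v w) * ∑ b ∈ c.S α, der (c.X a b) (der (c.X b a) v) w := by
      intro a _
      rw [Finset.sum_comm]
      simp only [Finset.mul_sum]
    rw [Finset.sum_congr rfl h3, Finset.sum_comm]
    simp only [← Finset.mul_sum, h2]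
    rw [Finset.mul_sum, ← Finset.sum_neg_distrib]
    refine Finset.sum_congr rfl fun w _ => by ring
  have h4 : ∀ a b, ip v (der (c.X a b) (der (c.X b a) v)) =
      ((∑ w, ‖der (c.X b a) v w‖ ^ 2 : ℝ) : ℂ) := by
    intro a b
    rw [← ip_self_re, ip_der, c.X_conjTranspose]
  simp only [h4] at h1
  have h5 : (∑ a ∈ c.S α, ∑ b ∈ c.S α, (∑ w, ‖der (c.X b a) v w‖ ^ 2) : ℝ) = - (2 * x) := by
    have := h1
    exact_mod_cast this
  have h6 : ∑ a ∈ c.S α, ∑ b ∈ c.S α, (∑ w, ‖der (c.X b a) v w‖ ^ 2) = 0 := by
    apply le_antisymm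
    · rw [h5]; linarith
    · exact Finset.sum_nonneg fun a _ => Finset.sum_nonneg fun b _ =>
        Finset.sum_nonneg fun w _ => by positivity
  have h7 := (Finset.sum_eq_zero_iff_of_nonneg (fun a _ => Finset.sum_nonneg fun b _ =>
        Finset.sum_nonneg fun w _ => by positivity)).1 h6 b (c.mem_S.2 hb)
  have h8 := (Finset.sum_eq_zero_iff_of_nonneg (fun b _ =>
        Finset.sum_nonneg fun w _ => by positivity)).1 h7 a (c.mem_S.2 ha)
  intro w
  have h9 := (Finset.sum_eq_zero_iff_of_nonneg (fun w _ => by positivity)).1 h8 w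
    (Finset.mem_univ _)
  simpa using h9

end Crd

/-! ## Matrix units and counting -/

/-- Matrix unit. -/
def E (a b : I) : Matrix I I ℂ := fun p q => if p = a ∧ q = b then 1 else 0

lemma der_E {L : ℕ} (a b : I) (v : Tn I L) (w : Fin L → I) :
    der (E a b) v w = ∑ i, if w i = a then v (Function.update w i b) else 0 := by
  unfold der sl E
  refine Finset.sum_congr rfl fun i _ => ?_
  by_cases h : w i = a
  · simp [h]
  · simp [h]

/-- Number of slots with letter `b`. -/
def cnt {L : ℕ} (b : I) (w : Fin L → I) : ℂ := ∑ i, if w i = b then 1 else 0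

lemma der_E_self {L : ℕ} (a : I) (v : Tn I L) (w : Fin L → I) :
    der (E a a) v w = cnt a w * v w := by
  rw [der_E, cnt, Finset.sum_mul]
  refine Finset.sum_congr rfl fun i _ => ?_
  by_cases h : w i = a
  · rw [if_pos h, if_pos h, one_mul, ← h, Function.update_eq_self]
  · rw [if_neg h, if_neg h, zero_mul]

lemma cnt_update {L : ℕ} (b : I) (w : Fin L → I) (i : Fin L) (q : I) :
    cnt b (Function.update w i q) = cnt b w - (if w i = b then 1 else 0) +
      (if q = b then 1 else 0) := by
  unfold cnt
  rw [← Finset.add_sum_erase _ _ (Finset.mem_univ i), ← Finset.add_sum_erase _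
    (fun j => if w j = b then (1 : ℂ) else 0) (Finset.mem_univ i)]
  rw [Function.update_self]
  have : ∑ j ∈ univ.erase i, (if Function.update w i q j = b then (1 : ℂ) else 0) =
      ∑ j ∈ univ.erase i, (if w j = b then (1 : ℂ) else 0) := by
    refine Finset.sum_congr rfl fun j hj => ?_
    rw [Function.update_of_ne (Finset.ne_of_mem_erase hj)]
  rw [this]
  ring

lemma der_E_cnt {L : ℕ} (p q b : I) (v : Tn I L) (w : Fin L → I) :
    der (E p q) (fun w => cnt b w * v w) w =
      (cnt b w - (if p = b then 1 else 0) + (if q = b then 1 else 0)) * der (E p q) v w := by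
  rw [der_E, der_E, Finset.mul_sum]
  refine Finset.sum_congr rfl fun i _ => ?_
  by_cases h : w i = p
  · rw [if_pos h, if_pos h, cnt_update, h]
  · rw [if_neg h, if_neg h, mul_zero]

namespace Crd

variable (c : Crd A I)

lemma der_X {L : ℕ} (a b : I) (v : Tn I L) (w : Fin L → I) :
    der (c.X a b) v w = der (E a b) v w -
      c.sg a * c.sg b * der (E (c.bar b) (c.bar a)) v w := by
  unfold der sl X E
  rw [Finset.mul_sum, ← Finset.sum_sub_distrib]
  refine Finset.sum_congr rfl fun i _ => ?_
  rw [Finset.mul_sum, ← Finset.sum_sub_distrib]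
  refine Finset.sum_congr rfl fun q _ => ?_
  by_cases h : w i = c.bar b ∧ q = c.bar a
  · rw [if_pos h, if_pos h]; ring
  · rw [if_neg h, if_neg h]; ring

lemma Dz_cnt {L : ℕ} (α : A) (v : Tn I L) (hv : c.Dz α v) (b : I) :
    c.Dz α (fun w => cnt b w * v w) := by
  intro w
  have h : off (c.PP α) (fun w => cnt b w * v w) w = cnt b w * off (c.PP α) v w := by
    unfold off
    simp only [Finset.mul_sum]
    refine Finset.sum_congr rfl fun i _ => ?_
    refine Finset.sum_congr rfl fun j hj => ?_
    refine Finset.sum_congr rfl fun r _ => ?_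
    refine Finset.sum_congr rfl fun s _ => ?_
    have hj' : j ≠ i := by simpa using hj
    by_cases h1 : w i = s ∧ w j = r
    · have h2 : cnt b (Function.update (Function.update w i r) j s) = cnt b w := by
        rw [cnt_update, cnt_update, Function.update_of_ne hj', h1.1, h1.2]
        ring
      rw [h2]
      ring
    · have h2 : c.PP α (w i) r (w j) s = 0 := by
        unfold PP
        rw [if_neg]
        rintro ⟨_, _, h3, h4⟩
        exact h1 ⟨h3, h4⟩
      rw [h2]
      ring
  rw [h]
  linear_combination cnt b w * hv w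

theorem der_E_zero {L : ℕ} (α : A) (v : Tn I L) (hv : c.Dz α v) {a b : I}
    (ha : c.typ a = α) (hb : c.typ b = α) (hab : a ≠ b) (w : Fin L → I) :
    der (E a b) v w = 0 := by
  have h1 := c.der_X_of_Dz α v hv ha hb w
  have h2 := c.der_X_of_Dz α _ (c.Dz_cnt α v hv b) ha hb w
  rw [c.der_X] at h1 h2
  rw [der_E_cnt, der_E_cnt] at h2
  set x := der (E a b) v w with hx
  set y := der (E (c.bar b) (c.bar a)) v w with hy
  rw [if_neg hab, if_pos rfl] at h2
  by_cases h3 : c.bar a = b
  · have h4 : c.bar b = a := by rw [← h3, c.bar_bar]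
    have h5 : c.sg a * c.sg b = c.eps α := by rw [← h3, ← ha]; exact c.sg_bar a
    have h6 : y = x := by rw [hy, h3, h4]
    rw [h5, h6] at h1
    rcases c.eps_pm α with h7 | h7
    · exfalso
      apply hab
      rw [← h3]
      exact (c.real a (by rw [ha, h7])).symm
    · rw [h7] at h1
      linear_combination (1 / 2 : ℂ) * h1
  · rw [if_neg h3] at h2
    by_cases h4 : c.bar b = b
    · rw [if_pos h4] at h2
      linear_combination (1 / 2 : ℂ) * h2 - (1 / 2 : ℂ) * (cnt b w - 1) * h1
    · rw [if_neg h4] at h2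
      linear_combination h2 - cnt b w * h1

end Crd

lemma off_swap {L : ℕ} (T : I → I → I → I → ℂ) (v : Tn I L) (w : Fin L → I) :
    off T v w = off (fun p a q b => T q b p a) v w := by
  unfold off
  simp only [Finset.sum_filter]
  rw [Finset.sum_comm]
  refine Finset.sum_congr rfl fun i _ => Finset.sum_congr rfl fun j _ => ?_
  by_cases h : j = i
  · rw [if_neg (fun h' => h' h.symm), if_neg (fun h' => h' h)]
  · rw [if_pos (fun h' => h h'.symm), if_pos h, Finset.sum_comm]
    refine Finset.sum_congr rfl fun a _ => Finset.sum_congr rfl fun b _ => ?_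
    rw [Function.update_comm (fun h' => h h'.symm)]

lemma diag_E {L : ℕ} (a b : I) (v : Tn I L) (w : Fin L → I) :
    ∑ i, ∑ s, (∑ t, E a b (w i) t * E b a t s) * v (Function.update w i s) =
      cnt a w * v w := by
  rw [cnt, Finset.sum_mul]
  refine Finset.sum_congr rfl fun i _ => ?_
  have h : ∀ s, (∑ t, E a b (w i) t * E b a t s) = if w i = a ∧ s = a then 1 else 0 := by
    intro s
    unfold E
    by_cases h1 : w i = a
    · by_cases h2 : s = a
      · simp [h1, h2]
      · simp [h2]
    · simp [h1]
  simp only [h]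
  rw [Finset.sum_eq_single (w i)]
  · rw [Function.update_eq_self]
    by_cases h1 : w i = a
    · rw [if_pos ⟨h1, h1⟩, if_pos h1]
    · rw [if_neg (fun h => h1 h.1), if_neg h1]
  · intro s _ hs
    rw [if_neg, zero_mul]
    rintro ⟨h1, h2⟩
    exact hs (by rw [h1, h2])
  · intro h; exact absurd (Finset.mem_univ _) h

lemma der_E_comm {L : ℕ} (a b : I) (v : Tn I L) (w : Fin L → I) :
    der (E a b) (der (E b a) v) w - der (E b a) (der (E a b) v) w =
      (cnt a w - cnt b w) * v w := by
  rw [der_der, der_der, diag_E, diag_E, off_swap (fun p a_1 q b_1 => E a b p a_1 * E b a q b_1)]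
  rw [off_congr (T := fun p a_1 q b_1 => E a b q b_1 * E b a p a_1)
    (T' := fun p a_1 q b_1 => E b a p a_1 * E a b q b_1) (fun p a q b => by ring)]
  ring

lemma der_zero {L : ℕ} (X : Matrix I I ℂ) (v : Tn I L) (hv : ∀ w, v w = 0) (w : Fin L → I) :
    der X v w = 0 := by
  unfold der sl
  refine Finset.sum_eq_zero fun i _ => Finset.sum_eq_zero fun b _ => ?_
  rw [hv, mul_zero]

namespace Crd

variable (c : Crd A I)

lemma len_eq {L : ℕ} (α : A) (w : Fin L → I) : c.len α w = ∑ a ∈ c.S α, cnt a w := by
  unfold len cnt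
  rw [Finset.sum_comm]
  refine Finset.sum_congr rfl fun i _ => ?_
  rw [Finset.sum_ite_eq]
  simp only [mem_S]

lemma sumE {L : ℕ} (α : A) (v : Tn I L) (w : Fin L → I) :
    ∑ a ∈ c.S α, ∑ b ∈ c.S α, der (E a b) (der (E b a) v) w =
      ((c.S α).card : ℂ) * c.len α w * v w + off (c.PP α) v w := by
  simp only [der_der, diag_E, Finset.sum_add_distrib]
  congr 1
  · simp only [Finset.sum_const, nsmul_eq_mul]
    rw [← Finset.mul_sum, ← Finset.sum_mul, c.len_eq]
    ring
  · have h : ∀ T : I → I → I → I → I → I → ℂ, ∑ a ∈ c.S α, ∑ b ∈ c.S α, off (T a b) v w =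
        off (fun p r q s => ∑ a ∈ c.S α, ∑ b ∈ c.S α, T a b p r q s) v w := by
      intro T
      unfold off
      simp only [Finset.sum_mul]
      have h1 : ∀ a ∈ c.S α, ∑ b ∈ c.S α, ∑ i, ∑ j ∈ univ.filter (· ≠ i), ∑ r, ∑ s,
          T a b (w i) r (w j) s * v (Function.update (Function.update w i r) j s) =
          ∑ i, ∑ j ∈ univ.filter (· ≠ i), ∑ r, ∑ s, ∑ b ∈ c.S α,
          T a b (w i) r (w j) s * v (Function.update (Function.update w i r) j s) := by
        intro a _
        rw [Finset.sum_comm]
        refine Finset.sum_congr rfl fun i _ => ?_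
        rw [Finset.sum_comm]
        refine Finset.sum_congr rfl fun j _ => ?_
        rw [Finset.sum_comm]
        refine Finset.sum_congr rfl fun r _ => ?_
        rw [Finset.sum_comm]
      rw [Finset.sum_congr rfl h1, Finset.sum_comm]
      refine Finset.sum_congr rfl fun i _ => ?_
      rw [Finset.sum_comm]
      refine Finset.sum_congr rfl fun j _ => ?_
      rw [Finset.sum_comm]
      refine Finset.sum_congr rfl fun r _ => ?_
      rw [Finset.sum_comm]
    rw [h]
    refine off_congr (fun p r q s => ?_) v w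
    have h1 : ∀ a b, E a b p r * E b a q s = if p = a ∧ r = b then E b a q s else 0 := by
      intro a b
      show (if p = a ∧ r = b then (1 : ℂ) else 0) * E b a q s = _
      split_ifs <;> simp
    simp only [h1]
    rw [dsum (c.S α) p r (fun a b => E b a q s)]
    unfold E PP
    simp only [mem_S]
    by_cases hq : q = r
    · subst hq
      by_cases hs : s = p
      · subst hs
        simp
      · simp [hs, Ne.symm hs]
    · simp [hq]

lemma cnt_nat {L : ℕ} (b : I) (w : Fin L → I) :
    cnt b w = ((univ.filter (fun i => w i = b)).card : ℂ) := by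
  unfold cnt
  rw [Finset.card_filter, Nat.cast_sum]
  refine Finset.sum_congr rfl fun i _ => ?_
  split_ifs <;> simp

theorem main_count {L : ℕ} (α : A) (v : Tn I L) (hv : c.Dz α v) (w : Fin L → I)
    (hw : v w ≠ 0) :
    (∀ a, c.typ a = α → cnt a w = 0) ∨
      (c.eps α = 1 ∧ ∀ a, c.typ a = α → cnt a w = 1) := by
  have hE : ∀ a b, c.typ a = α → c.typ b = α → a ≠ b → ∀ w, der (E a b) v w = 0 :=
    fun a b ha hb hab w => c.der_E_zero α v hv ha hb hab w
  have hcnt : ∀ a b, c.typ a = α → c.typ b = α → cnt a w = cnt b w := by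
    intro a b ha hb
    by_cases hab : a = b
    · rw [hab]
    · have h1 := der_E_comm a b v w
      rw [der_zero (E a b) _ (hE b a hb ha (Ne.symm hab)) w,
        der_zero (E b a) _ (hE a b ha hb hab) w, sub_zero] at h1
      have h2 := (mul_eq_zero.1 h1.symm).resolve_right hw
      linear_combination h2
  rcases (c.S α).eq_empty_or_nonempty with hS | ⟨a0, ha0⟩
  · left
    intro a ha
    exfalso
    have := c.mem_S.2 ha
    rw [hS] at this
    simp at this
  · have ha0' := c.mem_S.1 ha0
    set k := cnt a0 w with hk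
    have hk' : ∀ a, c.typ a = α → cnt a w = k := fun a ha => hcnt a a0 ha ha0'
    have h1 := c.sumE α v w
    have h2 : ∑ a ∈ c.S α, ∑ b ∈ c.S α, der (E a b) (der (E b a) v) w =
        ((c.S α).card : ℂ) * (k * (k * v w)) := by
      have h3 : ∀ a ∈ c.S α, ∑ b ∈ c.S α, der (E a b) (der (E b a) v) w =
          k * (k * v w) := by
        intro a ha
        have ha' := c.mem_S.1 ha
        rw [Finset.sum_eq_single a]
        · rw [der_E_self, der_E_self, hk' a ha']
        · intro b hb hba
          exact der_zero _ _ (hE b a (c.mem_S.1 hb) ha' hba) w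
        · intro h; exact absurd ha h
      rw [Finset.sum_congr rfl h3, Finset.sum_const, nsmul_eq_mul]
    have h4 : c.len α w = ((c.S α).card : ℂ) * k := by
      rw [c.len_eq, Finset.sum_congr rfl (fun a ha => hk' a (c.mem_S.1 ha)),
        Finset.sum_const, nsmul_eq_mul]
    have h5 := hv w
    rw [h4] at h5 h1
    rw [h2] at h1
    have hn : ((c.S α).card : ℂ) ≠ 0 := by
      have : (c.S α).card ≠ 0 := Finset.card_ne_zero_of_mem ha0
      exact_mod_cast this
    have h6 : ((c.S α).card : ℂ) * v w * (k * (k - c.eps α)) = 0 := by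
      linear_combination h1 + h5
    have h7 := (mul_eq_zero.1 h6).resolve_left (mul_ne_zero hn hw)
    rcases mul_eq_zero.1 h7 with h8 | h8
    · left
      intro a ha
      rw [hk' a ha, h8]
    · right
      have h9 : k = c.eps α := by linear_combination h8
      rcases c.eps_pm α with h10 | h10
      · refine ⟨h10, fun a ha => ?_⟩
        rw [hk' a ha, h9, h10]
      · exfalso
        rw [h10, hk, cnt_nat] at h9
        have h11 : (((univ.filter (fun i => w i = a0)).card + 1 : ℕ) : ℂ) = 0 := by
          push_cast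
          rw [h9]; ring
        have h12 : (univ.filter (fun i => w i = a0)).card + 1 = 0 := by exact_mod_cast h11
        omega

theorem no_letter {L : ℕ} (α : A) (v : Tn I L) (hv : c.Dz α v)
    (hrefl : c.eps α = 1 → ∀ a, c.typ a = α → ∀ w : Fin L → I,
      (∏ i, if w i = a then (-1 : ℂ) else 1) * v w = v w)
    (w : Fin L → I) (hw : v w ≠ 0) (i : Fin L) : c.typ (w i) ≠ α := by
  intro hi
  rcases c.main_count α v hv w hw with h | ⟨h1, h2⟩
  · have h3 := h (w i) hi
    rw [cnt_nat] at h3
    have h4 : (univ.filter (fun j => w j = w i)).card = 0 := by exact_mod_cast h3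
    have h5 : i ∈ univ.filter (fun j => w j = w i) := by simp
    exact Finset.card_ne_zero_of_mem h5 h4
  · have h3 := hrefl h1 (w i) hi w
    have h4 := h2 (w i) hi
    rw [cnt_nat] at h4
    have h5 : (univ.filter (fun j => w j = w i)).card = 1 := by exact_mod_cast h4
    rw [Finset.prod_ite, Finset.prod_const, Finset.prod_const_one, h5] at h3
    apply hw
    linear_combination (-1 / 2 : ℂ) * h3

end Crd

end MP361RM
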